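import Pool.Agent.U644.GI.Defs
import Pool.Agent.U644.MW.Main

/-!
# Galois cohomology of the groups `H^(2r-1)(X)(r)` over a local field: lemmas
-/

set_option autoImplicit false

open Module TensorProduct

namespace Pool.Agent.U644.GI

universe u v w

open Pool.Agent.H914 Pool.Agent.Y143 Pool.Agent.Y163.MW Pool.Agent.Y163.MW.Coh Pool.Agent.U644.MW

variable {Ω : Type w} [Field Ω] [CharZero Ω] {R R' R'' : Coh.{v, w} Ω} {q : ℕ}

/-- A number `α` with `α ^ k = q ^ (k r)` has weight `2 r`. -/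
lemma weil_of_pow (hq : 1 < q) {α : Ω} {k r : ℕ} (hk : 0 < k) (h : α ^ k = (q : Ω) ^ (k * r)) :
    IsWeilNumber q (2 * (r : ℤ)) α := by
  have h1 : (Polynomial.aeval α) (Polynomial.X ^ k - Polynomial.C ((q : ℚ) ^ (k * r))) = 0 := by
    simp [h]
  have hp : (Polynomial.X ^ k - Polynomial.C ((q : ℚ) ^ (k * r)) : Polynomial ℚ) ≠ 0 :=
    (Polynomial.monic_X_pow_sub_C _ (by omega)).ne_zero
  refine ⟨⟨_, hp, h1⟩, fun y hy => ?_⟩
  have h2 := minpoly.dvd ℚ α h1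
  obtain ⟨g, hg⟩ := h2
  have h3 : (Polynomial.aeval y) (Polynomial.X ^ k - Polynomial.C ((q : ℚ) ^ (k * r))) = 0 := by
    rw [hg, map_mul, hy, zero_mul]
  have h4 : y ^ k = (q : ℂ) ^ (k * r) := by
    simp only [map_sub, map_pow, Polynomial.aeval_X, Polynomial.aeval_C, map_natCast] at h3
    exact sub_eq_zero.1 h3
  have h5 : ‖y‖ ^ k = ((q : ℝ) ^ r) ^ k := by
    rw [← norm_pow, h4, norm_pow, Complex.norm_natCast, ← pow_mul, mul_comm]
  have h6 : ‖y‖ = (q : ℝ) ^ r := (pow_left_inj₀ (norm_nonneg _) (by positivity) (by omega)).1 h5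
  rw [h6, ← Real.rpow_natCast]
  congr 1
  push_cast
  ring

/-- Vectors of excess `c` killed by `N ^ (b + 1)` are zero. -/
def G (R : Coh.{v, w} Ω) (q b : ℕ) (c : ℤ) : Prop :=
  ∀ x ∈ R.tot q c, (R.N ^ (b + 1)) x = 0 → x = 0

lemma G_unit (hq : 1 < q) {κ : R.V ⊗[Ω] R'.V ≃ₗ[Ω] R''.V} (hκ : IsKunneth R R' R'' κ) {b : ℕ}
    {c : ℤ} (h : G R'' q b c) {c' : ℤ} (h' : ∃ y ∈ R'.tot q c', y ≠ 0 ∧ R'.N y = 0) :
    G R q b (c - c') := by
  obtain ⟨y, hy, hy0, hyN⟩ := h'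
  intro x hx h0
  have hN : ∀ k : ℕ, ∀ x, (R''.N ^ k) (κ (x ⊗ₜ y)) = κ ((R.N ^ k) x ⊗ₜ y) := by
    intro k
    induction k with
    | zero => intro x; simp
    | succ k ih =>
      intro x
      have h1 : R''.N (κ (x ⊗ₜ y)) = κ (R.N x ⊗ₜ y) + κ (x ⊗ₜ R'.N y) := hκ.monodromy x y
      rw [pow_succ, Module.End.mul_apply, h1, hyN, tmul_zero, map_zero, add_zero, ih, pow_succ,
        Module.End.mul_apply]
  have h2 : κ (x ⊗ₜ y) ∈ R''.tot q c := by
    have := kunneth_tot (by omega) hκ hx hy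
    simpa using this
  have h3 := h _ h2 (by rw [hN, h0, zero_tmul, map_zero])
  have h4 : x ⊗ₜ[Ω] y = 0 := (LinearEquiv.map_eq_zero_iff κ).1 h3
  by_contra hx0
  exact hy0 (tmul_left_cancel hx0 h4)

lemma G_step (hq : 1 < q) (hR : R.IsCoh q) {κ : R.V ⊗[Ω] R'.V ≃ₗ[Ω] R''.V}
    (hκ : IsKunneth R R' R'' κ) {b : ℕ} {c : ℤ} (h : G R'' q b c)
    (h' : ∃ e ∈ R'.tot q 1, R'.N e ∈ R'.tot q (-1) ∧ R'.N e ≠ 0 ∧ R'.N (R'.N e) = 0) :
    G R q (b + 1) (c + 1) := by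
  obtain ⟨e, he, hf, hf0, hNf⟩ := h'
  intro x hx h0
  have hN1 : ∀ (x : R.V) (y : R'.V), R''.N (κ (x ⊗ₜ y)) = κ (R.N x ⊗ₜ y) + κ (x ⊗ₜ R'.N y) :=
    hκ.monodromy
  have hNf' : ∀ k : ℕ, ∀ x, (R''.N ^ k) (κ (x ⊗ₜ R'.N e)) = κ ((R.N ^ k) x ⊗ₜ R'.N e) := by
    intro k
    induction k with
    | zero => intro x; simp
    | succ k ih =>
      intro x
      rw [pow_succ, Module.End.mul_apply, hN1, hNf, tmul_zero, map_zero, add_zero, ih, pow_succ,
        Module.End.mul_apply]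
  have hNe : ∀ k : ℕ, ∀ x, (R''.N ^ (k + 1)) (κ (x ⊗ₜ e)) =
      κ ((R.N ^ (k + 1)) x ⊗ₜ e) + ((k + 1 : ℕ) : Ω) • κ ((R.N ^ k) x ⊗ₜ R'.N e) := by
    intro k
    induction k with
    | zero => intro x; simp [hN1]
    | succ k ih =>
      intro x
      rw [pow_succ, Module.End.mul_apply, hN1, map_add, ih, hNf', pow_succ (R.N) (k + 1),
        Module.End.mul_apply, add_assoc]
      congr 1
      have e1 : (R.N ^ k) (R.N x) = (R.N ^ (k + 1)) x := by
        rw [pow_succ, Module.End.mul_apply]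
      rw [e1]
      push_cast
      module
  have hb : ((b + 1 : ℕ) : Ω) ≠ 0 := Nat.cast_ne_zero.2 (by omega)
  have hx' : κ (x ⊗ₜ R'.N e) - (((b + 1 : ℕ) : Ω))⁻¹ • κ (R.N x ⊗ₜ e) ∈ R''.tot q c := by
    refine Submodule.sub_mem _ ?_ (Submodule.smul_mem _ _ ?_)
    · have := kunneth_tot (by omega) hκ hx hf
      rwa [show c + 1 + -1 = c by ring] at this
    · have := kunneth_tot (by omega) hκ (N_tot hq hR _ _ hx) he
      rwa [show c + 1 - 2 + 1 = c by ring] at this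
  have h1 := h _ hx' (by
    rw [map_sub, map_smul, hNf', hNe, ← Module.End.mul_apply, ← Module.End.mul_apply, ← pow_succ,
      ← pow_succ, show b + 1 + 1 = b + 2 by ring]
    have h2 : (R.N ^ (b + 2)) x = 0 := h0
    rw [h2, zero_tmul, map_zero, zero_add, smul_smul, inv_mul_cancel₀ hb, one_smul, sub_self])
  by_contra hx0
  have h3 : κ (x ⊗ₜ R'.N e) = (((b + 1 : ℕ) : Ω))⁻¹ • κ (R.N x ⊗ₜ e) := sub_eq_zero.1 h1
  have h4 : x ⊗ₜ[Ω] R'.N e = (((b + 1 : ℕ) : Ω))⁻¹ • (R.N x ⊗ₜ[Ω] e) := by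
    apply κ.injective
    rw [h3, map_smul]
  have h5 := congrArg (TensorProduct.map (LinearMap.id : R.V →ₗ[Ω] R.V) R'.N) h4
  rw [map_smul, TensorProduct.map_tmul, TensorProduct.map_tmul, LinearMap.id_apply,
    LinearMap.id_apply, hNf, tmul_zero] at h5
  have h6 : R.N x ⊗ₜ[Ω] R'.N e = 0 := (smul_eq_zero.1 h5.symm).resolve_left (inv_ne_zero hb)
  have h7 : R.N x = 0 := by
    by_contra h8
    exact hf0 (tmul_left_cancel h8 h6)
  rw [h7, zero_tmul, smul_zero] at h4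
  exact hf0 (tmul_left_cancel hx0 h4)

section times

variable {K : Type u} [Field K] {T : Theory.{u, v, w} K Ω}

/-- Excess one on `X × Z ^ n` controls all the excesses at most `n + 1` on `X`. -/
lemma G_times [IsAlgClosed Ω] (hT : T.IsLocal q) (hq : 1 < q) (X Z : SmVar.{u} K)
    (hZ : IsTest (T.H Z) q) (n : ℕ) (h : G (T.H (times X Z n)) q 0 1) :
    ∀ b c : ℕ, b < c → c ≤ n + 1 → G (T.H X) q b c := by
  obtain ⟨h1, h2⟩ := exists_test hq (hT.coh Z) hZ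
  obtain ⟨e, he, hf, hf0, hNf⟩ := h2
  have h3 : ∃ y ∈ (T.H Z).tot q (-1), y ≠ 0 ∧ (T.H Z).N y = 0 := ⟨_, hf, hf0, hNf⟩
  suffices H : ∀ b0 c0 : ℕ, G (T.H (times X Z n)) q b0 c0 → ∀ b c : ℕ, b0 ≤ b → c0 ≤ c →
      b - b0 ≤ c - c0 → c ≤ n + c0 → G (T.H X) q b c by
    intro b c hbc hc
    exact H 0 1 (by simpa using h) b c (by omega) (by omega) (by omega) (by omega)
  clear h
  induction n with
  | zero =>
    intro b0 c0 h b c hb hc hbc hc'
    obtain rfl : c = c0 := by omega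
    obtain rfl : b = b0 := by omega
    exact h
  | succ n ih =>
    intro b0 c0 h b c hb hc hbc hc'
    obtain ⟨κ, hκ⟩ := hT.kunneth (times X Z n) Z
    rcases Nat.lt_or_ge (n + c0) c with h4 | h4
    · rcases Nat.lt_or_ge b0 b with h5 | h5
      · have h6 := G_step hq (hT.coh _) hκ h ⟨e, he, hf, hf0, hNf⟩
        have h7 : G (T.H (times X Z n)) q (b0 + 1) ((c0 + 1 : ℕ) : ℤ) := by
          push_cast
          exact h6
        exact ih (b0 + 1) (c0 + 1) h7 b c (by omega) (by omega) (by omega) (by omega)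
      · have h6 := G_unit hq hκ h h3
        have h7 : G (T.H (times X Z n)) q b0 ((c0 + 1 : ℕ) : ℤ) := by
          push_cast
          rwa [sub_neg_eq_add] at h6
        exact ih b0 (c0 + 1) h7 b c (by omega) (by omega) (by omega) (by omega)
    · have h6 := G_unit hq hκ h h1
      rw [sub_zero] at h6
      exact ih b0 c0 h6 b c (by omega) (by omega) (by omega) (by omega)

end times

end Pool.Agent.U644.GI
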