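import Pool.Agent.U644.MW.Defs

/-!
# Galois cohomology of the groups `H^(2r-1)(X)(r)` over a local field

`T.H X` is the cohomology of the smooth proper variety `X` over a local field `K` whose residue field
has `q` elements, with a geometric Frobenius element `F` and the monodromy operator `N`
(`Pool.Agent.Y163.MW.Coh`). Let `G_k` be the group generated by `F ^ k` and by an open subgroup of the
inertia group which acts unipotently, that is, an open subgroup of the Weil group of `K`.
-/

set_option autoImplicit false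

open Module

namespace Pool.Agent.U644.GI

universe u v w

open Pool.Agent.H914 Pool.Agent.Y143 Pool.Agent.Y163.MW

section plain

variable {Ω : Type w} [Field Ω] {V : Type v} [AddCommGroup V] [Module Ω V]

/-- The action of `F ^ k` on the Tate twist `V(r)`: the geometric Frobenius `F` acts on `Ω(1)` as
`q⁻¹`. -/
noncomputable def twist (q k r : ℕ) (F : Module.End Ω V) : Module.End Ω V :=
  ((q : Ω) ^ (k * r))⁻¹ • F ^ k

/-- A vector in `S` which is fixed by `A` and killed by `N` is zero. -/
def NoFixed (S : Submodule Ω V) (A N : Module.End Ω V) : Prop := ∀ x ∈ S, A x = x → N x = 0 → x = 0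

/-- The complex `S → S ⊕ S → S`, with the maps `x ↦ (A x - x, N x)` and
`(a, b) ↦ N a - (c A b - b)`, is exact in the middle. -/
def ExactMiddle (c : Ω) (S : Submodule Ω V) (A N : Module.End Ω V) : Prop :=
  ∀ a ∈ S, ∀ b ∈ S, N a = c • A b - b → ∃ x ∈ S, a = A x - x ∧ b = N x

/-- `F` has an eigenvector in `S` with eigenvalue `α`. -/
def HasEigen (S : Submodule Ω V) (F : Module.End Ω V) (α : Ω) : Prop :=
  ∃ x ∈ S, x ≠ 0 ∧ F x = α • x

/-- `S` is stable under `A` and the determinant of `1 - A` on `S` is not zero. -/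
def DetNeZero (S : Submodule Ω V) (A : Module.End Ω V) : Prop :=
  ∃ h : ∀ x ∈ S, A x ∈ S, LinearMap.det (LinearMap.id - A.restrict h) ≠ 0

end plain

variable {Ω : Type w} [Field Ω] [CharZero Ω]

/-- The action of `F ^ k` on the Tate twist `H^m(X)(r)`. -/
noncomputable def frob (R : Coh.{v, w} Ω) (q k r : ℕ) : Module.End Ω R.V := twist q k r R.F

/-- `H^0(G_k, H^(2r-1)(X)(r)) = 0`: a vector in `H^(2r-1)(X)(r)` which is fixed by `F ^ k` and killed by
`N` is zero. -/
def H0Vanishes (R : Coh.{v, w} Ω) (q k r : ℕ) : Prop :=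
  NoFixed (R.gr (2 * r - 1)) (frob R q k r) R.N

/-- `H^1(G_k, H^(2r-1)(X)(r)) = 0`: with `V = H^(2r-1)(X)(r)`, the complex
`V → V ⊕ V(-1) → V(-1)`, with the maps `x ↦ (F^k x - x, N x)` and `(a, b) ↦ N a - (F^k b - b)`, is exact in
the middle. (`F ^ k` acts on `V(-1)` as `q ^ k` times its action on `V`.) -/
def H1Vanishes (R : Coh.{v, w} Ω) (q k r : ℕ) : Prop :=
  ExactMiddle ((q : Ω) ^ k) (R.gr (2 * r - 1)) (frob R q k r) R.N

/-- The inertia invariants of `H^(2r-1)(Y)`: the kernel of `N`. -/
def inertiaInvariants (R : Coh.{v, w} Ω) (r : ℕ) : Submodule Ω R.V :=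
  R.gr (2 * r - 1) ⊓ LinearMap.ker R.N

/-- The Euler factor `det(1 - q^(-ks) F^k on H^(2r-1)(Y)^I)⁻¹` of `H^(2r-1)(Y)` over the unramified
extension of degree `k` of `K` has no pole at `s = r`: the determinant of `1 - q^(-kr) F^k` on the
inertia invariants is not zero. -/
def NoPole (R : Coh.{v, w} Ω) (q k r : ℕ) : Prop := DetNeZero (inertiaInvariants R r) (frob R q k r)

/-- The cohomology of a variety with potentially good reduction: `N = 0` and `H^m` is pure of
weight `m`. -/
structure IsGood (R : Coh.{v, w} Ω) (q : ℕ) : Prop where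
  zero : R.N = 0
  pure : ∀ m, R.MWPure q m

/-- The eigenvalues of the Frobenius element are algebraic integers. -/
def IntegralEigenvalues {K : Type u} [Field K] (T : Theory.{u, v, w} K Ω) : Prop :=
  ∀ (X : SmVar.{u} K) (m : ℕ) (α : Ω), HasEigen ((T.H X).gr m) (T.H X).F α → IsIntegral ℤ α

/-- Honda–Tate theory: for every algebraic integer `α` which is a `q`-Weil number there are a
variety `B` over `K` with potentially good reduction (a product of abelian varieties), an
eigenvalue `β` of the Frobenius element on some `H^j(B)`, and `k ≥ 1` and `r` with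
`(α β) ^ k = q ^ (k r)`. -/
def HondaTate {K : Type u} [Field K] (T : Theory.{u, v, w} K Ω) (q : ℕ) : Prop :=
  ∀ (w : ℤ) (α : Ω), IsWeilNumber q w α → IsIntegral ℤ α →
    ∃ (B : SmVar.{u} K) (j : ℕ) (β : Ω) (k r : ℕ), IsGood (T.H B) q ∧
      HasEigen ((T.H B).gr j) (T.H B).F β ∧ 0 < k ∧ (α * β) ^ k = (q : Ω) ^ (k * r)

end Pool.Agent.U644.GI
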