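import Pool.Agent.U644.GI.Core

/-!
# Galois cohomology of the groups `H^(2r-1)(X)(r)` over a local field: main theorem
-/

set_option autoImplicit false

open Module TensorProduct

namespace Pool.Agent.U644.GI

universe u v w

open Pool.Agent.H914 Pool.Agent.Y143 Pool.Agent.Y163.MW Pool.Agent.Y163.MW.Coh Pool.Agent.U644.MW

variable {Ω : Type w} [Field Ω] [CharZero Ω] {R R' R'' : Coh.{v, w} Ω} {q : ℕ}

section frob

lemma frob_apply (k r : ℕ) (x : R.V) : frob R q k r x = ((q : Ω) ^ (k * r))⁻¹ • (R.F ^ k) x := rfl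

lemma powF_mem (hR : R.IsCoh q) (m k : ℕ) : ∀ x ∈ R.gr m, (R.F ^ k) x ∈ R.gr m := by
  induction k with
  | zero => intro x hx; simpa using hx
  | succ k ih =>
    intro x hx
    rw [pow_succ, Module.End.mul_apply]
    exact ih _ (hR.F_gr m x hx)

lemma frob_mem (hR : R.IsCoh q) (m k r : ℕ) : ∀ x ∈ R.gr m, frob R q k r x ∈ R.gr m :=
  fun x hx => Submodule.smul_mem _ _ (powF_mem hR m k x hx)

lemma N_powF (hR : R.IsCoh q) (k : ℕ) (x : R.V) :
    R.N ((R.F ^ k) x) = (q : Ω) ^ k • (R.F ^ k) (R.N x) := by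
  induction k generalizing x with
  | zero => simp
  | succ k ih =>
    rw [pow_succ, Module.End.mul_apply, ih, hR.N_F x, map_smul, smul_smul, Module.End.mul_apply,
      pow_succ]

lemma N_frob (hR : R.IsCoh q) (k r : ℕ) (x : R.V) :
    R.N (frob R q k r x) = (q : Ω) ^ k • frob R q k r (R.N x) := by
  rw [frob_apply, frob_apply, map_smul, N_powF hR, smul_comm]

lemma F_frob (k r : ℕ) (x : R.V) : R.F (frob R q k r x) = frob R q k r (R.F x) := by
  rw [frob_apply, frob_apply, map_smul]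
  congr 1
  rw [← Module.End.mul_apply, ← Module.End.mul_apply, ← pow_succ, ← pow_succ']

/-- eigenvectors in a nonzero stable subspace -/
lemma exists_eigen [IsAlgClosed Ω] (hR : R.IsCoh q) {S : Submodule Ω R.V}
    (hS : ∀ x ∈ S, R.F x ∈ S) (h : S ≠ ⊥) : ∃ α : Ω, ∃ y ∈ S, y ≠ 0 ∧ R.F y = α • y := by
  have := hR.finite
  obtain ⟨x, hx, hx0⟩ := Submodule.exists_mem_ne_zero_of_ne_bot h
  have : Nontrivial S := ⟨⟨x, hx⟩, 0, fun h5 => hx0 (congrArg Subtype.val h5)⟩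
  obtain ⟨α, hα⟩ := Module.End.exists_eigenvalue (R.F.restrict hS)
  obtain ⟨y, hy⟩ := hα.exists_hasEigenvector
  exact ⟨α, y, y.2, fun h5 => hy.2 (Subtype.ext h5), congrArg Subtype.val hy.apply_eq_smul⟩

lemma powF_eigen {α : Ω} {y : R.V} (h : R.F y = α • y) (k : ℕ) : (R.F ^ k) y = α ^ k • y := by
  induction k with
  | zero => simp
  | succ k ih => rw [pow_succ, Module.End.mul_apply, h, map_smul, ih, smul_smul, ← pow_succ']

/-- if `c q^(-kr) F^k` fixes a nonzero vector of the stable subspace `S` then `F` has an eigenvector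
there whose eigenvalue satisfies `c α ^ k = q ^ (k r)` -/
lemma exists_eigen' [IsAlgClosed Ω] (hq : 1 < q) (hR : R.IsCoh q) {S : Submodule Ω R.V}
    (hS : ∀ x ∈ S, R.F x ∈ S) {k r : ℕ} {c : Ω} {x : R.V} (hx : x ∈ S) (hx0 : x ≠ 0)
    (h : c • frob R q k r x = x) :
    ∃ α : Ω, ∃ y ∈ S, y ≠ 0 ∧ R.F y = α • y ∧ c * α ^ k = (q : Ω) ^ (k * r) := by
  have hq0 : ((q : Ω) ^ (k * r)) ≠ 0 := pow_ne_zero _ (Nat.cast_ne_zero.2 (by omega))
  let S' : Submodule Ω R.V := S ⊓ LinearMap.ker (c • frob R q k r - 1)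
  have hS' : ∀ x ∈ S', R.F x ∈ S' := by
    intro x hx
    obtain ⟨h1, h2⟩ := Submodule.mem_inf.1 hx
    refine Submodule.mem_inf.2 ⟨hS x h1, ?_⟩
    rw [LinearMap.mem_ker, LinearMap.sub_apply, LinearMap.smul_apply, Module.End.one_apply] at h2 ⊢
    rw [← F_frob, ← map_smul, ← map_sub, h2, map_zero]
  have hne : S' ≠ ⊥ := by
    rw [Submodule.ne_bot_iff]
    refine ⟨x, Submodule.mem_inf.2 ⟨hx, ?_⟩, hx0⟩
    rw [LinearMap.mem_ker, LinearMap.sub_apply, LinearMap.smul_apply, Module.End.one_apply, h,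
      sub_self]
  obtain ⟨α, y, hy, hy0, hFy⟩ := exists_eigen hR hS' hne
  obtain ⟨h1, h2⟩ := Submodule.mem_inf.1 hy
  refine ⟨α, y, h1, hy0, hFy, ?_⟩
  rw [LinearMap.mem_ker, LinearMap.sub_apply, LinearMap.smul_apply, Module.End.one_apply,
    frob_apply, powF_eigen hFy, smul_smul, smul_smul, sub_eq_zero] at h2
  have h3 : c * (((q : Ω) ^ (k * r))⁻¹ * α ^ k) = 1 := by
    have h4 : (c * (((q : Ω) ^ (k * r))⁻¹ * α ^ k) - 1) • y = 0 := by
      rw [sub_smul, one_smul, sub_eq_zero]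
      rw [mul_assoc] at h2
      exact h2
    exact sub_eq_zero.1 ((smul_eq_zero.1 h4).resolve_right hy0)
  field_simp at h3
  linear_combination h3

end frob

/-- For a mw pure cohomology `H^0` vanishes. -/
lemma H0_of_pure [IsAlgClosed Ω] (hq : 1 < q) (hR : R.IsCoh q) {k r : ℕ} (hk : 0 < k) (hr : 0 < r)
    (h : R.MWPure q (2 * r - 1)) : H0Vanishes R q k r := by
  intro x hx hF hN
  by_contra hx0
  let S : Submodule Ω R.V := R.gr (2 * r - 1) ⊓ LinearMap.ker R.N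
  have hS : ∀ x ∈ S, R.F x ∈ S := by
    intro x hx
    obtain ⟨h1, h2⟩ := Submodule.mem_inf.1 hx
    refine Submodule.mem_inf.2 ⟨hR.F_gr _ x h1, ?_⟩
    rw [LinearMap.mem_ker] at h2 ⊢
    have := hR.N_F x
    rw [this, h2, map_zero, smul_zero]
  obtain ⟨α, y, hy, hy0, hFy, hα⟩ := exists_eigen' (c := 1) hq hR hS
    (Submodule.mem_inf.2 ⟨hx, LinearMap.mem_ker.2 hN⟩) hx0 (by rw [one_smul, hF])
  rw [one_mul] at hα
  have hw := weil_of_pow hq hk hα
  obtain ⟨h1, h2⟩ := Submodule.mem_inf.1 hy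
  have h3 : y ∈ R.exc q (2 * r - 1) 1 := by
    refine Submodule.mem_iSup_of_mem α (Submodule.mem_iSup_of_mem ?_ ?_)
    · rwa [show ((2 * r - 1 : ℕ) : ℤ) + 1 = 2 * r by omega]
    · exact Submodule.mem_inf.2 ⟨h1, (Module.End.mem_maxGenEigenspace _ _ _).2 ⟨1, by simp [hFy]⟩⟩
  exact hy0 (((mwPure_iff hq hR _).1 h 1).1 y h3 (by simpa using h2))

/-- For a mw pure cohomology the second map of the complex is surjective. -/
lemma H2_of_pure [IsAlgClosed Ω] (hq : 1 < q) (hR : R.IsCoh q) {k r : ℕ} (hk : 0 < k) (hr : 0 < r)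
    (h : R.MWPure q (2 * r - 1)) : ∀ y ∈ R.gr (2 * r - 1), ∃ a ∈ R.gr (2 * r - 1),
      ∃ b ∈ R.gr (2 * r - 1), y = R.N a - ((q : Ω) ^ k • frob R q k r b - b) := by
  have := hR.finite
  set m := 2 * r - 1 with hm
  let D : Module.End Ω R.V := (q : Ω) ^ k • frob R q k r - 1
  let W : Submodule Ω R.V := (R.gr m).map R.N ⊔ (R.gr m).map D
  suffices H : R.gr m ≤ W by
    intro y hy
    obtain ⟨y1, h1, y2, h2, rfl⟩ := Submodule.mem_sup.1 (H hy)
    obtain ⟨a, ha, rfl⟩ := Submodule.mem_map.1 h1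
    obtain ⟨b, hb, rfl⟩ := Submodule.mem_map.1 h2
    refine ⟨a, ha, -b, Submodule.neg_mem _ hb, ?_⟩
    show R.N a + ((q : Ω) ^ k • frob R q k r b - b) = _
    rw [map_neg, smul_neg]
    abel
  rw [← iSup_exc hR m]
  refine iSup_le fun c => ?_
  by_cases hc : c = -1
  · subst hc
    intro y hy
    obtain ⟨x, hx, hxy⟩ := ((mwPure_iff hq hR _).1 h 1).2 y hy
    rw [pow_one] at hxy
    exact Submodule.mem_sup_left (Submodule.mem_map.2 ⟨x, exc_le m _ hx, hxy⟩)
  · have hD : ∀ x ∈ R.exc q m c, D x ∈ R.exc q m c := by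
      have h1 : ∀ (j : ℕ), ∀ x ∈ R.exc q m c, (R.F ^ j) x ∈ R.exc q m c := by
        intro j
        induction j with
        | zero => intro x hx; simpa using hx
        | succ j ih => intro x hx; rw [pow_succ, Module.End.mul_apply]; exact ih _ (F_exc hR m c x hx)
      intro x hx
      exact Submodule.sub_mem _ (Submodule.smul_mem _ _ (Submodule.smul_mem _ _ (h1 k x hx))) hx
    have hinj : Function.Injective (D.restrict hD) := by
      rw [← LinearMap.ker_eq_bot, LinearMap.ker_eq_bot']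
      intro x hx
      apply Subtype.ext
      by_contra hx0
      have h1 : D x = 0 := congrArg Subtype.val hx
      have h2 : (q : Ω) ^ k • frob R q k r (x : R.V) = x := sub_eq_zero.1 h1
      obtain ⟨α, y, hy, hy0, hFy, hα⟩ := exists_eigen' hq hR (F_exc hR m c) x.2 hx0 h2
      have h3 := eigen_exc hq hR hy hy0 hFy
      have hr1 : k * r = k * (r - 1) + k := by
        obtain ⟨s, rfl⟩ : ∃ s, r = s + 1 := ⟨r - 1, by omega⟩
        rw [Nat.add_sub_cancel]; ring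
      have h4 : α ^ k = (q : Ω) ^ (k * (r - 1)) := by
        have hq0 : ((q : Ω) ^ k) ≠ 0 := pow_ne_zero _ (Nat.cast_ne_zero.2 (by omega))
        rw [hr1, pow_add, mul_comm] at hα
        exact mul_right_cancel₀ hq0 hα
      have h5 := weil_unique hq h3 (weil_of_pow hq hk h4)
      have h6 : ((r - 1 : ℕ) : ℤ) = r - 1 := by omega
      rw [h6] at h5
      have h7 : (m : ℤ) = 2 * r - 1 := by omega
      omega
    have hsurj := LinearMap.injective_iff_surjective.1 hinj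
    intro y hy
    obtain ⟨x, hx⟩ := hsurj ⟨y, hy⟩
    exact Submodule.mem_sup_right (Submodule.mem_map.2 ⟨x, exc_le m c x.2, congrArg Subtype.val hx⟩)

/-- For a mw pure cohomology `H^1` vanishes. -/
lemma H1_of_pure [IsAlgClosed Ω] (hq : 1 < q) (hR : R.IsCoh q) {k r : ℕ} (hk : 0 < k) (hr : 0 < r)
    (h : R.MWPure q (2 * r - 1)) : H1Vanishes R q k r := by
  have := hR.finite
  have h0 := H0_of_pure hq hR hk hr h
  have h2 := H2_of_pure hq hR hk hr h
  set m := 2 * r - 1 with hm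
  let V := R.gr m
  let A : Module.End Ω V := (frob R q k r).restrict (frob_mem hR m k r)
  let N : Module.End Ω V := R.N.restrict (hR.N_gr m)
  let d0 : V →ₗ[Ω] V × V := LinearMap.prod (A - 1) N
  let d1 : V × V →ₗ[Ω] V := N.coprod (1 - (q : Ω) ^ k • A)
  have hd0 : LinearMap.ker d0 = ⊥ := by
    rw [LinearMap.ker_eq_bot']
    intro x hx
    apply Subtype.ext
    have h3 : (A - 1) x = 0 := congrArg Prod.fst hx
    have h4 : N x = 0 := congrArg Prod.snd hx
    exact h0 x x.2 (sub_eq_zero.1 (congrArg Subtype.val h3)) (congrArg Subtype.val h4)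
  have hd1 : Function.Surjective d1 := by
    intro y
    obtain ⟨a, ha, b, hb, hy⟩ := h2 y y.2
    refine ⟨(⟨a, ha⟩, ⟨b, hb⟩), Subtype.ext ?_⟩
    rw [hy]
    show R.N a + (b - (q : Ω) ^ k • frob R q k r b) = _
    abel
  have hcomp : d1 ∘ₗ d0 = 0 := by
    ext x
    show R.N (frob R q k r x - x) + (R.N x - (q : Ω) ^ k • frob R q k r (R.N x)) = 0
    rw [map_sub, N_frob hR]
    abel
  have hle : LinearMap.range d0 ≤ LinearMap.ker d1 := by
    rw [LinearMap.range_le_ker_iff]; exact hcomp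
  have hdim : finrank Ω (LinearMap.ker d1) ≤ finrank Ω (LinearMap.range d0) := by
    have e1 := LinearMap.finrank_range_add_finrank_ker d1
    have e2 := LinearMap.finrank_range_add_finrank_ker d0
    rw [LinearMap.range_eq_top.2 hd1, finrank_top, Module.finrank_prod] at e1
    rw [hd0, finrank_bot, add_zero] at e2
    omega
  have heq := Submodule.eq_of_le_of_finrank_le hle hdim
  intro a ha b hb hab
  have h3 : ((⟨a, ha⟩, ⟨b, hb⟩) : V × V) ∈ LinearMap.ker d1 := by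
    rw [LinearMap.mem_ker]
    apply Subtype.ext
    show R.N a + (b - (q : Ω) ^ k • frob R q k r b) = 0
    rw [hab]
    abel
  rw [← heq] at h3
  obtain ⟨x, hx⟩ := h3
  refine ⟨x, x.2, ?_, ?_⟩
  · exact (congrArg Subtype.val (congrArg Prod.fst hx)).symm
  · exact (congrArg Subtype.val (congrArg Prod.snd hx)).symm

/-- If `H^1` vanishes then `H^0` vanishes. -/
lemma H0_of_H1 (hR : R.IsCoh q) {k r : ℕ} (h : H1Vanishes R q k r) : H0Vanishes R q k r := by
  have := hR.finite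
  intro x hx hF hN
  set m := 2 * r - 1 with hm
  let S : Submodule Ω R.V := R.gr m ⊓ LinearMap.ker R.N
  have hS : ∀ x ∈ S, (frob R q k r - 1) x ∈ S := by
    intro x hx
    obtain ⟨h1, h2⟩ := Submodule.mem_inf.1 hx
    refine Submodule.mem_inf.2 ⟨Submodule.sub_mem _ (frob_mem hR m k r x h1) h1, ?_⟩
    rw [LinearMap.mem_ker] at h2 ⊢
    rw [LinearMap.sub_apply, Module.End.one_apply, map_sub, N_frob hR, h2, map_zero, smul_zero,
      sub_zero]
  have hsurj : Function.Surjective ((frob R q k r - 1).restrict hS) := by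
    rintro ⟨a, ha⟩
    obtain ⟨h1, h2⟩ := Submodule.mem_inf.1 ha
    obtain ⟨y, hy, h3, h4⟩ := h a h1 0 (Submodule.zero_mem _) (by
      rw [LinearMap.mem_ker.1 h2, map_zero, smul_zero, sub_zero])
    exact ⟨⟨y, Submodule.mem_inf.2 ⟨hy, LinearMap.mem_ker.2 h4.symm⟩⟩, Subtype.ext h3.symm⟩
  have hinj := LinearMap.injective_iff_surjective.2 hsurj
  have h1 : ((frob R q k r - 1).restrict hS) ⟨x, Submodule.mem_inf.2 ⟨hx, LinearMap.mem_ker.2 hN⟩⟩ =
      0 := by
    apply Subtype.ext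
    show frob R q k r x - x = 0
    rw [hF, sub_self]
  exact congrArg Subtype.val (hinj (h1.trans (map_zero _).symm))

section main

variable {K : Type u} [Field K] {T : Theory.{u, v, w} K Ω}

/-- An eigenvector of excess one in the kernel of `N`. -/
lemma exists_exc_one [IsAlgClosed Ω] (hq : 1 < q) (hR : R.IsCoh q) (h : ¬ G R q 0 1) :
    ∃ m : ℕ, ∃ α : Ω, ∃ y ∈ R.gr m, y ≠ 0 ∧ R.N y = 0 ∧ R.F y = α • y ∧
      IsWeilNumber q ((m : ℤ) + 1) α := by
  classical
  have hind := hR.isInternal.submodule_iSupIndep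
  rw [iSupIndep_iff_finsetSum_eq_zero_imp_eq_zero] at hind
  unfold G at h
  push Not at h
  obtain ⟨x, hx, h0, hx0⟩ := h
  rw [zero_add, pow_one] at h0
  obtain ⟨f, hf, hfx⟩ := (Submodule.mem_iSup_iff_exists_finsupp _ _).1 hx
  have hfx' : ∑ m ∈ f.support, f m = x := hfx
  have h1 : ∀ m ∈ f.support, R.N (f m) = 0 := by
    refine hind f.support _ (fun m _ => hR.N_gr m _ (exc_le m 1 (hf m))) ?_
    rw [← map_sum, hfx', h0]
  have h2 : ∃ m ∈ f.support, f m ≠ 0 := by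
    by_contra hcon
    push Not at hcon
    exact hx0 (by rw [← hfx']; exact Finset.sum_eq_zero hcon)
  obtain ⟨m, hm, hm0⟩ := h2
  let S : Submodule Ω R.V := R.exc q m 1 ⊓ LinearMap.ker R.N
  have hS : ∀ y ∈ S, R.F y ∈ S := by
    intro y hy
    obtain ⟨h3, h4⟩ := Submodule.mem_inf.1 hy
    refine Submodule.mem_inf.2 ⟨F_exc hR m 1 y h3, ?_⟩
    rw [LinearMap.mem_ker]
    have := hR.N_F y
    rw [this, LinearMap.mem_ker.1 h4, map_zero, smul_zero]
  obtain ⟨α, y, hy, hy0, hFy⟩ := exists_eigen hR hS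
    ((Submodule.ne_bot_iff _).2 ⟨f m, Submodule.mem_inf.2 ⟨hf m, LinearMap.mem_ker.2 (h1 m hm)⟩, hm0⟩)
  obtain ⟨h3, h4⟩ := Submodule.mem_inf.1 hy
  exact ⟨m, α, y, exc_le m 1 h3, hy0, h4, hFy, eigen_exc hq hR h3 hy0 hFy⟩

/-- the weights of a variety with potentially good reduction -/
lemma good_weight [IsAlgClosed Ω] (hq : 1 < q) (hR : R.IsCoh q) (hB : IsGood R q) {j : ℕ} {β : Ω}
    {y : R.V} (hy : y ∈ R.gr j) (hy0 : y ≠ 0) (hF : R.F y = β • y) : IsWeilNumber q j β := by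
  obtain ⟨w, hw⟩ := hR.weil j β y hy hy0 hF
  have hc := (mwPure_iff hq hR j).1 (hB.pure j)
  have hN : ∀ (a : ℕ), 0 < a → ∀ x, (R.N ^ a) x = 0 := by
    intro a ha x
    obtain ⟨b, rfl⟩ : ∃ b, a = b + 1 := ⟨a - 1, by omega⟩
    rw [pow_succ, Module.End.mul_apply, hB.zero, LinearMap.zero_apply, map_zero]
  have h1 : y ∈ R.exc q j (w - j) := by
    refine Submodule.mem_iSup_of_mem β (Submodule.mem_iSup_of_mem ?_ ?_)
    · rwa [show (j : ℤ) + (w - j) = w by ring]
    · exact Submodule.mem_inf.2 ⟨hy, (Module.End.mem_maxGenEigenspace _ _ _).2 ⟨1, by simp [hF]⟩⟩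
  rcases lt_trichotomy (w - j) 0 with h2 | h2 | h2
  · exfalso
    obtain ⟨a, ha⟩ : ∃ a : ℕ, w - j = -(a : ℤ) := ⟨(j - w).toNat, by omega⟩
    rw [ha] at h1
    obtain ⟨x, _, hx⟩ := (hc a).2 y h1
    rw [hN a (by omega)] at hx
    exact hy0 hx.symm
  · rwa [show (w : ℤ) = j by omega] at hw
  · exfalso
    obtain ⟨a, ha⟩ : ∃ a : ℕ, w - j = (a : ℤ) := ⟨(w - j).toNat, by omega⟩
    rw [ha] at h1
    exact hy0 ((hc a).1 y h1 (hN a (by omega) y))

/-- The vanishing of `H^0` for the products with varieties with potentially good reduction. -/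
lemma G_of_H0 [IsAlgClosed Ω] (hT : T.IsLocal q) (hq : 1 < q) (hI : IntegralEigenvalues T)
    (hHT : HondaTate T q) (Y : SmVar.{u} K)
    (h : ∀ B : SmVar.{u} K, IsGood (T.H B) q → ∀ k r : ℕ, 0 < k → 0 < r →
      H0Vanishes (T.H (Y.prod B)) q k r) : G (T.H Y) q 0 1 := by
  by_contra hcon
  obtain ⟨m, α, x, hx, hx0, hNx, hFx, hw⟩ := exists_exc_one hq (hT.coh Y) hcon
  obtain ⟨B, j, β, k, r, hB, ⟨y, hy, hy0, hFy⟩, hk, hαβ⟩ := hHT _ α hw
    (hI Y m α ⟨x, hx, hx0, hFx⟩)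
  obtain ⟨κ, hκ⟩ := hT.kunneth Y B
  have hwβ := good_weight hq (hT.coh B) hB hy hy0 hFy
  have h1 := weil_unique hq (weil_mul (by omega) hw hwβ) (weil_of_pow hq hk hαβ)
  have h2 : m + j = 2 * r - 1 := by omega
  have h3 : κ (x ⊗ₜ y) ∈ (T.H (Y.prod B)).gr (2 * r - 1) := by
    rw [← h2]
    exact hκ.degree m j x y hx hy
  have hF : (T.H (Y.prod B)).F (κ (x ⊗ₜ y)) = (α * β) • κ (x ⊗ₜ y) := by
    have e : (T.H (Y.prod B)).F (κ (x ⊗ₜ y)) = κ ((T.H Y).F x ⊗ₜ (T.H B).F y) := hκ.frob x y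
    rw [e, hFx, hFy, smul_tmul_smul, map_smul]
  have h4 := h B hB k r hk (by omega) _ h3 (by
      rw [frob_apply, powF_eigen hF, hαβ, smul_smul, inv_mul_cancel₀, one_smul]
      exact pow_ne_zero _ (Nat.cast_ne_zero.2 (by omega))) (by
      have e : (T.H (Y.prod B)).N (κ (x ⊗ₜ y)) = κ ((T.H Y).N x ⊗ₜ y) + κ (x ⊗ₜ (T.H B).N y) :=
        hκ.monodromy x y
      rw [e, hNx, hB.zero, LinearMap.zero_apply, zero_tmul, tmul_zero, map_zero, add_zero])
  exact hy0 (tmul_left_cancel hx0 ((LinearEquiv.map_eq_zero_iff κ).1 h4))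

/-- A variety is mw pure if and only if it has a centred adapted basis. -/
lemma exists_adp [IsAlgClosed Ω] (hT : T.IsLocal q) (hq : 1 < q) (Y : SmVar.{u} K)
    (hY : ∀ m, (T.H Y).MWPure q m) :
    ∃ (I : Type) (_ : Fintype I) (a : I → ℤ), (T.H Y).Adp q a a := by
  obtain ⟨S⟩ := exists_strings hq (hT.coh Y)
  have h := (mw_iff hq (hT.coh Y) S).1 hY
  have h2 : S.ct = S.wt := by
    funext p
    unfold Strings.ct Strings.wt
    rw [h p.1]
  refine ⟨S.P, inferInstance, S.wt, ?_⟩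
  have := adp_strings S
  rwa [h2] at this

/-- Products of mw pure varieties are mw pure. -/
lemma pure_prod [IsAlgClosed Ω] (hT : T.IsLocal q) (hq : 1 < q)
    (hW : ∀ X : SmVar.{u} K, WeightRange (T.H X) q X.dim) (Z : SmVar.{u} K)
    (hZ : IsTest (T.H Z) q) (X Y : SmVar.{u} K) (hX : ∀ m, (T.H X).MWPure q m)
    (hY : ∀ m, (T.H Y).MWPure q m) : ∀ m, (T.H (X.prod Y)).MWPure q m := by
  have hB1 : StB1.{w, v} := Pool.Agent.Y954.MW.stB1 Pool.Agent.Y141.MW.stL
  refine ((main hT hq (X.prod Y) Z (hW _) hZ).out 3 0).1 fun n => ?_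
  have h : ∃ (I : Type) (_ : Fintype I) (a : I → ℤ),
      (T.H (times (X.prod Y) Z n)).Adp q a a := by
    induction n with
    | zero =>
      obtain ⟨I, _, a, ha⟩ := exists_adp hT hq X hX
      obtain ⟨J, _, c, hc⟩ := exists_adp hT hq Y hY
      obtain ⟨κ, hκ⟩ := hT.kunneth X Y
      exact ⟨I × J, inferInstance, _, ha.prod hc (by omega) hκ⟩
    | succ n ih =>
      obtain ⟨I, _, a, ha⟩ := ih
      obtain ⟨J, _, c, hc⟩ := exists_adp hT hq Z hZ.pure
      obtain ⟨κ, hκ⟩ := hT.kunneth (times (X.prod Y) Z n) Z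
      exact ⟨I × J, inferInstance, _, ha.prod hc (by omega) hκ⟩
  obtain ⟨I, _, a, ha⟩ := h
  rw [ha.inv_eq hB1, ha.pred_eq hq (hT.coh _)]

lemma pure_times [IsAlgClosed Ω] (hT : T.IsLocal q) (hq : 1 < q)
    (hW : ∀ X : SmVar.{u} K, WeightRange (T.H X) q X.dim) (Z : SmVar.{u} K)
    (hZ : IsTest (T.H Z) q) (X : SmVar.{u} K) (hX : ∀ m, (T.H X).MWPure q m) (n : ℕ) :
    ∀ m, (T.H (times X Z n)).MWPure q m := by
  induction n with
  | zero => exact hX
  | succ n ih => exact pure_prod hT hq hW Z hZ (times X Z n) Z ih hZ.pure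

theorem main [IsAlgClosed Ω] (hT : T.IsLocal q) (hq : 1 < q)
    (hW : ∀ X : SmVar.{u} K, WeightRange (T.H X) q X.dim) (Z : SmVar.{u} K)
    (hZ : IsTest (T.H Z) q) (hI : IntegralEigenvalues T) (hHT : HondaTate T q) (X : SmVar.{u} K) :
    List.TFAE [∀ m, (T.H X).MWPure q m,
      ∀ B : SmVar.{u} K, IsGood (T.H B) q → ∀ k r : ℕ, 0 < k → 0 < r →
        H0Vanishes (T.H ((times X Z (X.dim - 1)).prod B)) q k r,
      ∀ B : SmVar.{u} K, IsGood (T.H B) q → ∀ k r : ℕ, 0 < k → 0 < r →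
        H1Vanishes (T.H ((times X Z (X.dim - 1)).prod B)) q k r] := by
  tfae_have 1 → 3 := by
    intro h B hB k r hk hr
    exact H1_of_pure hq (hT.coh _) hk hr
      (pure_prod hT hq hW Z hZ _ B (pure_times hT hq hW Z hZ X h _) hB.pure _)
  tfae_have 3 → 2 := fun h B hB k r hk hr => H0_of_H1 (hT.coh _) (h B hB k r hk hr)
  tfae_have 2 → 1 := by
    intro h
    have h1 := G_times hT hq X Z hZ _ (G_of_H0 hT hq hI hHT _ h)
    refine pure_of_P hq (hT.coh X) fun b c hc x hx h0 => ?_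
    obtain ⟨c, rfl⟩ : ∃ c' : ℕ, c = c' := ⟨c.toNat, by omega⟩
    rcases Nat.lt_or_ge X.dim c with h2 | h2
    · rw [tot_eq_bot hq (hT.coh X) (hW X) (by omega)] at hx
      exact (Submodule.mem_bot Ω).1 hx
    · exact h1 b c (by omega) (by omega) x hx h0
  tfae_finish

end main

end Pool.Agent.U644.GI
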